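import Pool.Agent.H62.UN.Targets

/-!
# Row HCT of the board `unt_modules`: the discrete valuations which are trivial on `k(s)` are prime
divisors of the conic bundle surface
-/

set_option autoImplicit false

namespace Pool.Agent.H21.UNT

open Polynomial Pool.Agent.H17.UN Pool.Agent.H62.UN

section Val

variable {F : Type} [Field F] {o : F → ℤ}

theorem o_one (hv : IsVal o) : o 1 = 0 := by
  have h := hv.mul 1 1 one_ne_zero one_ne_zero
  rw [mul_one] at h
  omega

theorem o_pow (hv : IsVal o) (w : F) (hw : w ≠ 0) (n : ℕ) : o (w ^ n) = n * o w := by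
  induction n with
  | zero => rw [pow_zero, o_one hv]; simp
  | succ n ih =>
    rw [pow_succ, hv.mul _ _ (pow_ne_zero n hw) hw, ih]
    push_cast
    ring

theorem o_neg_one (hv : IsVal o) : o (-1) = 0 := by
  have h := hv.mul (-1) (-1) (neg_ne_zero.2 one_ne_zero) (neg_ne_zero.2 one_ne_zero)
  rw [neg_one_mul, neg_neg, o_one hv] at h
  omega

theorem o_inv (hv : IsVal o) (w : F) (hw : w ≠ 0) : o w⁻¹ = -o w := by
  have h := hv.mul w w⁻¹ hw (inv_ne_zero hw)
  rw [mul_inv_cancel₀ hw, o_one hv] at h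
  omega

theorem o_add_nn (hv : IsVal o) (a b : F) (ha : 0 ≤ o a) (hb : 0 ≤ o b) : 0 ≤ o (a + b) := by
  by_cases h1 : a = 0
  · rw [h1, zero_add]; exact hb
  by_cases h2 : b = 0
  · rw [h2, add_zero]; exact ha
  by_cases h3 : a + b = 0
  · rw [h3, hv.zero]
  · exact (le_min ha hb).trans (hv.add a b h1 h2 h3)

theorem o_mul_nn (hv : IsVal o) (a b : F) (ha : 0 ≤ o a) (hb : 0 ≤ o b) : 0 ≤ o (a * b) := by
  by_cases h1 : a = 0
  · rw [h1, zero_mul, hv.zero]
  by_cases h2 : b = 0
  · rw [h2, mul_zero, hv.zero]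
  rw [hv.mul a b h1 h2]
  omega

theorem o_sq_nn (hv : IsVal o) (a : F) (h : 0 ≤ o (a ^ 2)) : 0 ≤ o a := by
  by_cases h1 : a = 0
  · rw [h1, hv.zero]
  rw [o_pow hv a h1] at h
  push_cast at h
  omega

variable {k : Type} [Field k] [Algebra k F]

/-- the valuation ring -/
def vr (hv : IsVal o) (hk : ∀ c : k, 0 ≤ o (algebraMap k F c)) : Subalgebra k F where
  carrier := {x | 0 ≤ o x}
  mul_mem' := fun {a b} ha hb => o_mul_nn hv a b ha hb
  add_mem' := fun {a b} ha hb => o_add_nn hv a b ha hb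
  algebraMap_mem' := hk

theorem fin_loc (A : Subalgebra k F) (hv : IsVal o) (x G H w a a' c c' : F) (n : ℕ)
    (hH : H ≠ 0) (hw : w ≠ 0) (hc : c ≠ 0) (hc' : c' ≠ 0) (hoc : o c = 0) (hoc' : o c' = 0)
    (hcA : c ∈ A) (hc'A : c' ∈ A) (haA : a ∈ A) (ha'A : a' ∈ A) (h1 : c * G = a * w ^ n)
    (h2 : c' * H = a' * w ^ n) (hx : x = G / H) (ho : o H = n * o w) :
    ∃ p ∈ A, ∃ r ∈ A, r ≠ 0 ∧ o r = 0 ∧ x = p / r := by
  have hwn : w ^ n ≠ 0 := pow_ne_zero n hw
  have ha' : a' ≠ 0 := by
    intro h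
    rw [h, zero_mul] at h2
    exact (mul_ne_zero hc' hH) h2
  have ho' : o a' = 0 := by
    have h3 := hv.mul c' H hc' hH
    rw [h2, hv.mul a' _ ha' hwn, o_pow hv w hw, hoc', ho] at h3
    omega
  refine ⟨a * c', A.mul_mem haA hc'A, a' * c, A.mul_mem ha'A hcA, mul_ne_zero ha' hc, ?_, ?_⟩
  · rw [hv.mul a' c ha' hc, ho', hoc, add_zero]
  · rw [hx, div_eq_div_iff hH (mul_ne_zero ha' hc)]
    apply mul_right_cancel₀ hwn
    calc G * (a' * c) * w ^ n = (c * G) * (a' * w ^ n) := by ring
      _ = (a * w ^ n) * (c' * H) := by rw [h1, h2]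
      _ = a * c' * H * w ^ n := by ring

end Val

theorem pf_HCT : T_HCT := by
  intro hSPN hKSF hQIR hHCL hHUN k F _ _ _ _ P Q y₀ z₀ s y z τ hT o hv htr
  have hs : Transcendental k s := by
    have h := hT.cb.ind.transcendental 0
    simpa using h
  have hzt : Transcendental k z := by
    have h := hT.cb.ind.transcendental 1
    simpa using h
  have hs0 : s ≠ 0 := by
    rintro rfl
    exact hs isAlgebraic_zero
  have hz0 : z ≠ 0 := by
    rintro rfl
    exact hzt isAlgebraic_zero
  have hsm : s ∈ ks k s := IntermediateField.mem_adjoin_simple_self k s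
  have hmem : ∀ p : k[X], ∃ c : ks k s, (c : F) = aeval s p := by
    intro p
    exact ⟨aeval (⟨s, hsm⟩ : ks k s) p, (IntermediateField.aeval_coe _ _ _).symm⟩
  have hos : ∀ p : k[X], o (aeval s p) = 0 := by
    intro p
    obtain ⟨c, hc⟩ := hmem p
    rw [← hc]
    exact htr c
  have hok : ∀ c : k, 0 ≤ o (algebraMap k F c) := by
    intro c
    have h := hos (C c)
    rw [aeval_C] at h
    rw [h]
  obtain ⟨Qs, hQs⟩ := hmem Q
  obtain ⟨ys, hys⟩ := hmem y₀
  obtain ⟨zs, hzs⟩ := hmem z₀
  obtain ⟨hq1, hq2⟩ := hQIR k F P Q y₀ z₀ s y z τ hT Qs ys zs hQs hys hzs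
  obtain ⟨q, hqd⟩ : ∃ q : (ks k s)[X], q = X ^ 2 - C Qs := ⟨_, rfl⟩
  obtain ⟨q2, hq2d⟩ : ∃ q2 : (ks k s)[X], q2 = C zs * X ^ 2 + C (2 * ys) * X + C (Qs * zs) :=
    ⟨_, rfl⟩
  rw [← hqd] at hq1 hq2
  rw [← hq2d] at hq2
  have eq1 : aeval τ q = τ ^ 2 - aeval s Q := by
    rw [hqd, map_sub, map_pow, aeval_X, aeval_C, ← hQs]
    rfl
  have eq2 : z * aeval τ q = aeval τ q2 := by
    rw [eq1, hT.fz, hq2d]
    simp only [map_add, map_mul, map_pow, aeval_X, aeval_C]
    rw [← hQs, ← hys, ← hzs]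
    have e2 : algebraMap (ks k s) F 2 = 2 := map_ofNat _ 2
    rw [e2]
    rfl
  have hqτ : aeval τ q ≠ 0 := by rw [eq1]; exact hT.q0
  have hzq : z * aeval τ q ≠ 0 := mul_ne_zero hz0 hqτ
  have hinj : ∀ g : (ks k s)[X], g ≠ 0 → aeval τ g ≠ 0 := by
    intro g hg h
    exact hT.tr ⟨g, hg, h⟩
  have hτ0 : τ ≠ 0 := by
    have h := hinj X X_ne_zero
    rwa [aeval_X] at h
  have hzs0 : zs ≠ 0 := by
    intro h
    rw [h] at hzs
    have h1 : aeval s z₀ = 0 := by rw [← hzs]; rfl
    exact hs ⟨z₀, hT.z0, h1⟩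
  obtain ⟨hfr, -, -⟩ := hHUN (ks k s) F τ hT.tr hT.gen
  have hcl := hHCL (ks k s) F τ hT.tr hT.gen o hv htr
  -- the place
  have hpl : ∀ (π : (ks k s)[X]), Irreducible π → IsPl τ π o → ∀ g : (ks k s)[X], g ≠ 0 →
      0 ≤ o (aeval τ g) ∧ (π ∣ g → 0 < o (aeval τ g)) ∧ (¬ π ∣ g → o (aeval τ g) = 0) := by
    intro π hπ hp g hg
    obtain ⟨n, c, hc, hgc⟩ := WfDvdMonoid.max_power_factor hg hπ
    have h1 := hp n c hc
    rw [← hgc] at h1
    refine ⟨by rw [h1]; positivity, ?_, ?_⟩
    · intro h2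
      rw [h1]
      rcases Nat.eq_zero_or_pos n with h3 | h3
      · rw [h3, pow_zero, one_mul] at hgc
        rw [hgc] at h2
        exact absurd h2 hc
      · exact_mod_cast h3
    · intro h2
      have h3 := hp 0 g h2
      rw [pow_zero, one_mul] at h3
      exact_mod_cast h3
  have hq0 : q ≠ 0 := hq1.ne_zero
  have hq20 : q2 ≠ 0 := by
    intro h
    rw [h, map_zero] at eq2
    exact hzq eq2
  have hdq : q.natDegree = 2 := by
    rw [hqd]
    exact natDegree_X_pow_sub_C
  have hdq2 : q2.natDegree = 2 := by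
    rw [hq2d]
    compute_degree!
  -- numerator and denominator
  have hnum : ∀ π : (ks k s)[X], Irreducible π → IsPl τ π o → ∀ x : F, x ≠ 0 → 0 ≤ o x →
      ∃ g h : (ks k s)[X], h ≠ 0 ∧ x = aeval τ g / aeval τ h ∧ o (aeval τ h) = 0 := by
    intro π hπ hp x hx hox
    obtain ⟨g, h, hgh, hm, hg, hxe⟩ := hfr x hx
    have hh0 : h ≠ 0 := hm.ne_zero
    refine ⟨g, h, hh0, hxe, ?_⟩
    apply (hpl π hπ hp h hh0).2.2
    intro hd
    have hg1 : ¬ π ∣ g := by
      intro hd'
      exact hπ.not_isUnit (hgh.isUnit_of_dvd' hd' hd)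
    have h1 := (hpl π hπ hp g hg).2.2 hg1
    have h2 := (hpl π hπ hp h hh0).2.1 hd
    have h3 : x * aeval τ h = aeval τ g := by
      rw [hxe, div_mul_cancel₀ _ (hinj h hh0)]
    have h4 := hv.mul x _ hx (hinj h hh0)
    rw [h3, h1] at h4
    omega
  have hcA : ∀ (A : Subalgebra k F), s ∈ A → ∀ c : k[X], aeval s c ∈ A := by
    intro A hsA c
    have h1 : aeval s c = ((aeval (⟨s, hsA⟩ : A) c : A) : F) := by
      rw [← Subalgebra.aeval_coe]
    rw [h1]
    exact (aeval (⟨s, hsA⟩ : A) c).2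
  constructor
  · intro hz
    have hch : ch k s y z 0 = Algebra.adjoin k {s, y, z} := rfl
    have hsA : s ∈ ch k s y z 0 := by
      rw [hch]
      exact Algebra.subset_adjoin (by simp)
    refine ⟨?_, ?_⟩
    · have h1 : ch k s y z 0 ≤ vr hv hok := by
        rw [hch]
        apply Algebra.adjoin_le
        rintro x (rfl | rfl | rfl)
        · change 0 ≤ o x
          have h := hos X
          rw [aeval_X] at h
          rw [h]
        · change 0 ≤ o x
          apply o_sq_nn hv
          rw [hT.cb.eq]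
          apply o_add_nn hv
          · rw [hos]
          · apply o_mul_nn hv
            · rw [hos]
            · rw [pow_two]
              exact o_mul_nn hv _ _ hz hz
        · exact hz
      exact fun a ha => h1 ha
    · intro x hx hox
      -- the data for `fin_loc`
      have key : ∃ (g h : (ks k s)[X]) (n : ℕ), g.natDegree ≤ 2 * n ∧ h.natDegree ≤ 2 * n ∧
          h ≠ 0 ∧ x = aeval τ g / aeval τ h ∧ o (aeval τ h) = n * o (aeval τ q) := by
        rcases hcl with ⟨π, -, hπ, hp⟩ | hinf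
        · obtain ⟨g, h, hh0, hxe, hoh⟩ := hnum π hπ hp x hx hox
          have hπq : ¬ π ∣ q := by
            intro hd
            have h1 := (hpl π hπ hp q hq0).2.1 hd
            have h2 : ¬ π ∣ q2 := fun hd' => hπ.not_isUnit (hq2.isUnit_of_dvd' hd hd')
            have h3 := (hpl π hπ hp q2 hq20).2.2 h2
            have h4 := hv.mul z _ hz0 hqτ
            rw [eq2, h3] at h4
            omega
          have hoq := (hpl π hπ hp q hq0).2.2 hπq
          exact ⟨g, h, max g.natDegree h.natDegree, by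
            have := le_max_left g.natDegree h.natDegree
            omega, by
            have := le_max_right g.natDegree h.natDegree
            omega, hh0, hxe, by rw [hoh, hoq, mul_zero]⟩
        · obtain ⟨g, h, hgh, hm, hg, hxe⟩ := hfr x hx
          have hh0 : h ≠ 0 := hm.ne_zero
          have h3 : x * aeval τ h = aeval τ g := by
            rw [hxe, div_mul_cancel₀ _ (hinj h hh0)]
          have h4 := hv.mul x _ hx (hinj h hh0)
          rw [h3, hinf g hg, hinf h hh0] at h4
          have h5 : g.natDegree ≤ h.natDegree := by omega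
          have hXh : X ^ h.natDegree * h ≠ 0 := mul_ne_zero (pow_ne_zero _ X_ne_zero) hh0
          refine ⟨X ^ h.natDegree * g, X ^ h.natDegree * h, h.natDegree, ?_, ?_, hXh, ?_, ?_⟩
          · rw [natDegree_mul (pow_ne_zero _ X_ne_zero) hg, natDegree_X_pow]
            omega
          · rw [natDegree_mul (pow_ne_zero _ X_ne_zero) hh0, natDegree_X_pow]
            omega
          · rw [map_mul, map_mul, map_pow, aeval_X,
              mul_div_mul_left _ _ (pow_ne_zero _ hτ0)]
            exact hxe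
          · rw [hinf _ hXh, hinf _ hq0, hdq, natDegree_mul (pow_ne_zero _ X_ne_zero) hh0,
              natDegree_X_pow]
            push_cast
            ring
      obtain ⟨g, h, n, hgn, hhn, hh0, hxe, hoh⟩ := key
      obtain ⟨c, a, hc, hc0, haA, -, h1⟩ := hSPN k F P Q y₀ z₀ s y z τ hT n g hgn
      obtain ⟨c', a', hc', hc0', haA', -, h2⟩ := hSPN k F P Q y₀ z₀ s y z τ hT n h hhn
      rw [← eq1] at h1 h2
      exact fin_loc (ch k s y z 0) hv x _ _ _ a a' _ _ n (hinj h hh0) hqτ hc0 hc0' (hos c)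
        (hos c') (hcA _ hsA c) (hcA _ hsA c') haA haA' h1 h2 hxe hoh
  · intro hz
    have hch : ch k s y z 1 = Algebra.adjoin k {s, y / z, z⁻¹} := rfl
    have hsA : s ∈ ch k s y z 1 := by
      rw [hch]
      exact Algebra.subset_adjoin (by simp)
    have hzi : 0 ≤ o z⁻¹ := by
      rw [o_inv hv z hz0]
      omega
    refine ⟨?_, ?_⟩
    · have h1 : ch k s y z 1 ≤ vr hv hok := by
        rw [hch]
        apply Algebra.adjoin_le
        rintro x (rfl | rfl | rfl)
        · change 0 ≤ o x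
          have h := hos X
          rw [aeval_X] at h
          rw [h]
        · change 0 ≤ o (y / z)
          apply o_sq_nn hv
          have h2 : (y / z) ^ 2 = aeval s Q + aeval s P * (z⁻¹ * z⁻¹) := by
            rw [div_pow, hT.cb.eq]
            field_simp
            ring
          rw [h2]
          apply o_add_nn hv
          · rw [hos]
          · apply o_mul_nn hv
            · rw [hos]
            · exact o_mul_nn hv _ _ hzi hzi
        · exact hzi
      exact fun a ha => h1 ha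
    · intro x hx hox
      have key : ∃ (g h : (ks k s)[X]) (n : ℕ), g.natDegree ≤ 2 * n ∧ h.natDegree ≤ 2 * n ∧
          h ≠ 0 ∧ x = aeval τ g / aeval τ h ∧ o (aeval τ h) = n * o (z * aeval τ q) := by
        rcases hcl with ⟨π, -, hπ, hp⟩ | hinf
        · obtain ⟨g, h, hh0, hxe, hoh⟩ := hnum π hπ hp x hx hox
          have h4 := hv.mul z _ hz0 hqτ
          have h5 := (hpl π hπ hp q2 hq20).1
          have hπq : π ∣ q := by
            by_contra hd
            have h1 := (hpl π hπ hp q hq0).2.2 hd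
            rw [eq2, h1] at h4
            omega
          have h2 : ¬ π ∣ q2 := fun hd' => hπ.not_isUnit (hq2.isUnit_of_dvd' hπq hd')
          have h3 := (hpl π hπ hp q2 hq20).2.2 h2
          exact ⟨g, h, max g.natDegree h.natDegree, by
            have := le_max_left g.natDegree h.natDegree
            omega, by
            have := le_max_right g.natDegree h.natDegree
            omega, hh0, hxe, by rw [hoh, eq2, h3, mul_zero]⟩
        · exfalso
          have h4 := hv.mul z _ hz0 hqτ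
          rw [eq2, hinf _ hq20, hinf _ hq0, hdq, hdq2] at h4
          omega
      obtain ⟨g, h, n, hgn, hhn, hh0, hxe, hoh⟩ := key
      obtain ⟨c, a, hc, hc0, -, haA, h1⟩ := hSPN k F P Q y₀ z₀ s y z τ hT n g hgn
      obtain ⟨c', a', hc', hc0', -, haA', h2⟩ := hSPN k F P Q y₀ z₀ s y z τ hT n h hhn
      rw [← eq1] at h1 h2
      have hzn : z ^ n ≠ 0 := pow_ne_zero n hz0
      have h3 : ∀ b : F, b * aeval τ q ^ n = b / z ^ n * (z * aeval τ q) ^ n := by
        intro b
        rw [mul_pow]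
        field_simp
      rw [h3] at h1 h2
      exact fin_loc (ch k s y z 1) hv x _ _ _ (a / z ^ n) (a' / z ^ n) _ _ n (hinj h hh0) hzq
        hc0 hc0' (hos c) (hos c') (hcA _ hsA c) (hcA _ hsA c') haA haA' h1 h2 hxe hoh

end Pool.Agent.H21.UNT
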